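import Pool.Agent.Helper77.SUBK.AsmG

set_option autoImplicit false

namespace Pool.Agent.Results.MP_9d7cd1_nt.NearUnits

/-- nonzero integers all of whose prime factors lie in `S` -/
def SNum (S : Finset ℕ) (u : ℤ) : Prop := u ≠ 0 ∧ ∀ q : ℕ, q.Prime → (q : ℤ) ∣ u → q ∈ S

/-- Hall's inequality for all integers `x`, `y` such that one of them is close to a multiple of a
rational number `u / v` composed of primes of `S`. -/
theorem result (S : Finset ℕ) (lam ε η B : ℝ) (hlam : IsAlgebraic ℚ lam) (hε : 0 < ε)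
    (hη : 0 < η) :
    ∃ C : ℝ, ∀ x y u v : ℤ, SNum S u → SNum S v →
      (|(v : ℝ)| ≤ |(x : ℝ)| ^ B ∧ |(x : ℝ) - lam * (u / v)| ≤ |(x : ℝ)| ^ (1 / 4 - η) ∨
       |(v : ℝ)| ≤ |(y : ℝ)| ^ B ∧ |(y : ℝ) - lam * (u / v)| ≤ |(y : ℝ)| ^ (1 / 2 - η)) →
      y ^ 2 ≠ x ^ 3 →
      Real.log |(x : ℝ)| ≤ (2 + ε) * Real.log |((y ^ 2 - x ^ 3 : ℤ) : ℝ)| + C := by
  classical
  have hp : ∀ p ∈ S.filter Nat.Prime, p.Prime := fun p h => (Finset.mem_filter.mp h).2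
  have hsu : ∀ u : ℤ, SNum S u → Pool.Agent.Helper70.SUB.SU (S.filter Nat.Prime) u := by
    intro u hu
    exact ⟨hu.1, fun q hq hd => Finset.mem_filter.mpr ⟨hu.2 q hq hd, hq⟩⟩
  obtain ⟨C1, h1⟩ := Pool.Agent.Helper77.SUBK.k_nxr (S.filter Nat.Prime) lam ε η B hp hlam hε hη
  obtain ⟨C2, h2⟩ := Pool.Agent.Helper77.SUBK.k_nyr (S.filter Nat.Prime) lam ε η B hp hlam hε hη
  refine ⟨max C1 C2, fun x y u v hu hv hc hne => ?_⟩
  rcases hc with ⟨ha, hb⟩ | ⟨ha, hb⟩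
  · exact (h1 x y u v (hsu u hu) (hsu v hv) ha hb hne).trans
      (add_le_add_right (le_max_left _ _) _)
  · exact (h2 x y u v (hsu u hu) (hsu v hv) ha hb hne).trans
      (add_le_add_right (le_max_right _ _) _)

end Pool.Agent.Results.MP_9d7cd1_nt.NearUnits
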