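import Pool.Agent.Helper70.SUBW.Asm

set_option autoImplicit false

namespace Pool.Agent.Results.MP_9d7cd1_nt.SparsePoints

/-- `z` is a sum of `t` terms `c * γ` with `γ` in `Γ` and an integer `c`, `|c| ≤ B` -/
def Terms (Γ : Subgroup ℂˣ) (t : ℕ) (B : ℝ) (z : ℂ) : Prop :=
  ∃ (c : Fin t → ℤ) (γ : Fin t → ℂˣ), (∀ i, γ i ∈ Γ) ∧ (∀ i, |(c i : ℝ)| ≤ B) ∧
    z = ∑ i, (c i : ℂ) * (γ i : ℂ)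

/-- `z` is the sum of an element `γ₀` of `Γ` and of `t` terms `c * γ` as above, each of absolute
value at most `|γ₀| ^ (1 - δ)` -/
def Dominated (Γ : Subgroup ℂˣ) (t : ℕ) (δ B : ℝ) (z : ℂ) : Prop :=
  ∃ γ₀ ∈ Γ, ∃ (c : Fin t → ℤ) (γ : Fin t → ℂˣ), (∀ i, γ i ∈ Γ) ∧ (∀ i, |(c i : ℝ)| ≤ B) ∧
    (∀ i, ‖(c i : ℂ) * (γ i : ℂ)‖ ≤ ‖(γ₀ : ℂ)‖ ^ (1 - δ)) ∧
    z = (γ₀ : ℂ) + ∑ i, (c i : ℂ) * (γ i : ℂ)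

/-- Hall's inequality for points with sparse coordinates. -/
theorem result (Γ : Subgroup ℂˣ) (hΓ : Γ.FG) (halg : ∀ γ ∈ Γ, IsAlgebraic ℚ (γ : ℂ)) (t : ℕ)
    (ε δ : ℝ) (hε : 0 < ε) (hδ : 0 < δ) (hδ1 : δ < 1) :
    ∃ κ : ℝ, 0 < κ ∧ ∃ C : ℝ, ∀ x y : ℤ,
      ((Terms Γ t (|(x : ℝ)| ^ κ) (x : ℂ) ∧ Terms Γ t (|(x : ℝ)| ^ κ) (y : ℂ)) ∨
        Dominated Γ t δ (|(x : ℝ)| ^ κ) (x : ℂ) ∨ Dominated Γ t δ (|(y : ℝ)| ^ κ) (y : ℂ)) →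
      y ^ 2 ≠ x ^ 3 →
      Real.log |(x : ℝ)| ≤ (2 + ε) * Real.log |((y ^ 2 - x ^ 3 : ℤ) : ℝ)| + C :=
  Pool.Agent.Helper70.SUBW.w_fin Γ t ε δ hΓ halg hε hδ hδ1

end Pool.Agent.Results.MP_9d7cd1_nt.SparsePoints
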